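import Pool.Agent.H958.LR.Stm

/-!
# Project LR: the extinction criterion `S_PERC`
-/

namespace Pool.Agent.H955.LR

open MeasureTheory ProbabilityTheory Set Filter
open scoped ENNReal NNReal Nat Topology
open Pool.Agent.H958.LR

/-! ### Transitive closure: measurability -/

/-- Iterates of a relation. -/
def Iter {V : Type} (R : V → V → Prop) : ℕ → V → V → Prop
  | 0, x, y => R x y
  | n + 1, x, y => ∃ z, Iter R n x z ∧ R z y

theorem transGen_iff_iter {V : Type} (R : V → V → Prop) (x y : V) :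
    Relation.TransGen R x y ↔ ∃ n, Iter R n x y := by
  constructor
  · intro h
    induction h with
    | single h => exact ⟨0, h⟩
    | tail _ h ih =>
      obtain ⟨n, hn⟩ := ih
      exact ⟨n + 1, _, hn, h⟩
  · rintro ⟨n, hn⟩
    induction n generalizing y with
    | zero => exact .single hn
    | succ n ih =>
      obtain ⟨z, hz, hzy⟩ := hn
      exact (ih z hz).tail hzy

theorem meas_transGen {Ω V : Type} [Countable V] (m : MeasurableSpace Ω) (R : Ω → V → V → Prop)
    (hR : ∀ a b, MeasurableSet[m] {ω | R ω a b}) (x y : V) :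
    MeasurableSet[m] {ω | Relation.TransGen (R ω) x y} := by
  have h : ∀ n y, MeasurableSet[m] {ω | Iter (R ω) n x y} := by
    intro n
    induction n with
    | zero => intro y; exact hR x y
    | succ n ih =>
      intro y
      have : {ω | Iter (R ω) (n + 1) x y} = ⋃ z, {ω | Iter (R ω) n x z} ∩ {ω | R ω z y} := by
        ext ω; simp [Iter]
      rw [this]
      exact MeasurableSet.iUnion fun z => (ih z).inter (hR z y)
  have : {ω | Relation.TransGen (R ω) x y} = ⋃ n, {ω | Iter (R ω) n x y} := by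
    ext ω; simp [transGen_iff_iter]
  rw [this]
  exact MeasurableSet.iUnion fun n => h n y

/-! ### The sigma-algebras of sets of coordinates -/

/-- The sigma-algebra generated by the coordinates in `T`. -/
@[reducible] def Hs {I Ω : Type} (Z : I → Ω → Bool) (T : Set I) : MeasurableSpace Ω :=
  ⨆ i ∈ T, MeasurableSpace.comap (Z i) inferInstance

theorem Hs_mono {I Ω : Type} (Z : I → Ω → Bool) {T T' : Set I} (h : T ⊆ T') : Hs Z T ≤ Hs Z T' :=
  biSup_mono h

theorem Hs_coord {I Ω : Type} (Z : I → Ω → Bool) {T : Set I} {i : I} (hi : i ∈ T) (b : Bool) :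
    MeasurableSet[Hs Z T] {ω | Z i ω = b} := by
  have h : MeasurableSpace.comap (Z i) inferInstance ≤ Hs Z T :=
    le_iSup₂_of_le (f := fun i (_ : i ∈ T) => MeasurableSpace.comap (Z i) inferInstance) i hi le_rfl
  exact h _ ⟨{b}, measurableSet_singleton b, rfl⟩

theorem Hs_indep {I Ω : Type} [m0 : MeasurableSpace Ω] {P : Measure Ω} (Z : I → Ω → Bool)
    (hm : ∀ i, Measurable (Z i)) (hi : iIndepFun Z P) {T T' : Set I} (hd : Disjoint T T')
    {A B : Set Ω} (hA : MeasurableSet[Hs Z T] A) (hB : MeasurableSet[Hs Z T'] B) :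
    P (A ∩ B) = P A * P B := by
  have h := indep_iSup_of_disjoint (m := fun i => MeasurableSpace.comap (Z i) inferInstance)
    (fun i => (hm i).comap_le) hi.iIndep hd
  exact (Indep_iff _ _ _).1 h A B hA hB

/-- The coordinates of the windows in `J`. -/
def Wd (V : Type) (J : Set ℕ) : Set ((Sym2 V ⊕ V) × ℕ) := {i | i.2 ∈ J}

theorem Wd_mono {V : Type} {J J' : Set ℕ} (h : J ⊆ J') : Wd V J ⊆ Wd V J' := fun _ hi => h hi

theorem Wd_disj {V : Type} {J J' : Set ℕ} (h : Disjoint J J') : Disjoint (Wd V J) (Wd V J') := by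
  rw [Set.disjoint_left] at h ⊢
  intro i hi hi'
  exact h hi hi'

section Events

variable {V Ω : Type} [Countable V] (Z : (Sym2 V ⊕ V) × ℕ → Ω → Bool)

theorem meas_chain (j : ℕ) (x y : V) :
    MeasurableSet[Hs Z {i | i.2 = j ∧ i.1.isLeft = true}] {ω | Relation.TransGen
      (fun a b => a ≠ b ∧ Z (Sum.inl s(a, b), j) ω = true) x y} := by
  refine meas_transGen _ (fun ω a b => a ≠ b ∧ Z (Sum.inl s(a, b), j) ω = true) ?_ x y
  intro a b
  by_cases h : a = b
  · simp [h]
  · simp only [ne_eq, h, not_false_eq_true, true_and]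
    exact Hs_coord Z (by simp) true

theorem meas_WStep (j : ℕ) (x y : V) :
    MeasurableSet[Hs Z (Wd V {j})] {ω | WStep (fun i => Z i ω) j x y} := by
  have : {ω | WStep (fun i => Z i ω) j x y} = {ω | x = y ∧ Z (Sum.inr x, j) ω = true} ∪
      {ω | Relation.TransGen (fun a b => a ≠ b ∧ Z (Sum.inl s(a, b), j) ω = true) x y} := by
    ext ω; rfl
  rw [this]
  refine MeasurableSet.union ?_ ?_
  · by_cases h : x = y
    · simp only [h, true_and]
      exact Hs_coord Z (by simp [Wd]) true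
    · simp [h]
  · refine Hs_mono Z ?_ _ (meas_chain Z j x y)
    intro i hi
    exact hi.1

theorem meas_ReachW (m : ℕ) : ∀ (j : ℕ) (x y : V),
    MeasurableSet[Hs Z (Wd V (Ici j))] {ω | ReachW (fun i => Z i ω) j m x y} := by
  induction m with
  | zero =>
    intro j x y
    by_cases h : x = y <;> simp [ReachW, h]
  | succ m ih =>
    intro j x y
    have : {ω | ReachW (fun i => Z i ω) j (m + 1) x y} =
        ⋃ z, {ω | WStep (fun i => Z i ω) j x z} ∩ {ω | ReachW (fun i => Z i ω) (j + 1) m z y} := by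
      ext ω; simp [ReachW]
    rw [this]
    refine MeasurableSet.iUnion fun z => MeasurableSet.inter ?_ ?_
    · exact Hs_mono Z (Wd_mono (by simp)) _ (meas_WStep Z j x z)
    · exact Hs_mono Z (Wd_mono (Ici_subset_Ici.2 (Nat.le_succ j))) _ (ih (j + 1) z y)

end Events

/-! ### The inner configuration -/

section Inner

variable {V Ω Λ : Type}

/-- The configuration on `Λ` obtained through the map `f` from the windows `j0 + j`. -/
def pull (f : Λ → V) (j0 : ℕ) (w : Win V) : Win Λ :=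
  fun i => w (Sum.map (Sym2.map f) f i.1, j0 + i.2)

theorem Step_pull (f : Λ → V) (j0 : ℕ) (w : Win V) (j : ℕ) (y z : Λ) :
    Step (pull f j0 w) j y z ↔ (y = z ∧ w (Sum.inr (f y), j0 + j) = true) ∨
      (y ≠ z ∧ w (Sum.inl s(f y, f z), j0 + j) = true) := by
  simp [Step, pull]

theorem meas_Step (Z : (Sym2 V ⊕ V) × ℕ → Ω → Bool) (f : Λ → V) (j0 j : ℕ) (y z : Λ) :
    MeasurableSet[Hs Z (Wd V {j0 + j})] {ω | Step (pull f j0 fun i => Z i ω) j y z} := by
  by_cases h : y = z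
  · simp only [Step_pull, h, true_and, ne_eq, not_true_eq_false, false_and, or_false]
    exact Hs_coord Z (by simp [Wd]) true
  · simp only [Step_pull, h, false_and, ne_eq, not_false_eq_true, true_and, false_or]
    exact Hs_coord Z (by simp [Wd]) true

theorem meas_Inner [Countable Λ] (Z : (Sym2 V ⊕ V) × ℕ → Ω → Bool) (f : Λ → V) (j0 : ℕ)
    (S : ℕ → Set Λ) (o : Λ) (j : ℕ) : ∀ y : Λ,
    MeasurableSet[Hs Z (Wd V (Iio (j0 + j)))]
      {ω | Inner (pull f j0 fun i => Z i ω) S o j y} := by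
  induction j with
  | zero => intro y; simp only [H958.LR.Inner]; exact MeasurableSet.const _
  | succ j ih =>
    intro y
    have : {ω | Inner (pull f j0 fun i => Z i ω) S o (j + 1) y} =
        {_ω : Ω | y ∈ S (j + 1)} ∩ ⋃ x, ({ω | Inner (pull f j0 fun i => Z i ω) S o j x} ∩
          {_ω | x ∈ S (j + 1)}) ∩ {ω | Step (pull f j0 fun i => Z i ω) j x y} := by
      ext ω; simp only [H958.LR.Inner, Set.mem_ofPred_eq, mem_inter_iff, mem_iUnion, and_assoc]
    rw [this]
    refine (MeasurableSet.const _).inter (MeasurableSet.iUnion fun x =>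
      (MeasurableSet.inter ?_ (MeasurableSet.const _)).inter ?_)
    · exact Hs_mono Z (Wd_mono (Iio_subset_Iio (by omega))) _ (ih x)
    · exact Hs_mono Z (Wd_mono (by simp)) _ (meas_Step Z f j0 j x y)

theorem Inner_incr (S : ℕ → Set Λ) (o : Λ) (j : ℕ) : ∀ y : Λ,
    Incr fun w : Win Λ => Inner w S o j y := by
  induction j with
  | zero => intro y w w' _ h; exact h
  | succ j ih =>
    rintro y w w' hw ⟨hy, x, hx, hxS, hs⟩
    refine ⟨hy, x, ih x w w' hw hx, hxS, ?_⟩
    rcases hs with ⟨h1, h2⟩ | ⟨h1, h2⟩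
    · exact Or.inl ⟨h1, hw _ h2⟩
    · exact Or.inr ⟨h1, hw _ h2⟩

/-- `Inner` only depends on the windows `< n` and not on the diagonal. -/
theorem Inner_congr (S : ℕ → Set Λ) (o : Λ) (n : ℕ) (w w' : Win Λ)
    (h1 : ∀ x j, j < n → w (Sum.inr x, j) = w' (Sum.inr x, j))
    (h2 : ∀ x y j, j < n → x ≠ y → w (Sum.inl s(x, y), j) = w' (Sum.inl s(x, y), j)) (j : ℕ) :
    j ≤ n → ∀ y : Λ, Inner w S o j y → Inner w' S o j y := by
  induction j with
  | zero => intro _ y h; exact h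
  | succ j ih =>
    rintro hj y ⟨hy, x, hx, hxS, hs⟩
    refine ⟨hy, x, ih (by omega) x hx, hxS, ?_⟩
    rcases hs with ⟨h, h'⟩ | ⟨h, h'⟩
    · exact Or.inl ⟨h, by rw [← h1 x j (by omega)]; exact h'⟩
    · exact Or.inr ⟨h, by rw [← h2 x y j (by omega) h]; exact h'⟩

end Inner

/-! ### The renewal decomposition (pointwise) -/

section Pointwise

variable {V Λ : Type}

/-- Allowed steps. -/
def Allowed (f : Λ → V) (j0 : ℕ) (w : Win V) (S : ℕ → Set Λ) (j : ℕ) (y : Λ) (z : V) : Prop :=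
  y ∈ S (j + 1) ∧ ∃ y', y' ∈ S (j + 1) ∧ z = f y' ∧ Step (pull f j0 w) j y y'

theorem decomp (f : Λ → V) (j0 : ℕ) (w : Win V) (S : ℕ → Set Λ) (o : Λ) (n m : ℕ) (hnm : n ≤ m)
    (ho : o ∈ S 0) (hS : S n = ∅) (z' : V) (h : ReachW w j0 m (f o) z') :
    ∃ j < n, ∃ y z, Inner (pull f j0 w) S o j y ∧
      (WStep w (j0 + j) (f y) z ∧ ¬ Allowed f j0 w S j y z) ∧
      ReachW w (j0 + j + 1) (m - j - 1) z z' := by
  have key : ∀ k ≤ n, (∃ j < n, ∃ y z, Inner (pull f j0 w) S o j y ∧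
      (WStep w (j0 + j) (f y) z ∧ ¬ Allowed f j0 w S j y z) ∧
      ReachW w (j0 + j + 1) (m - j - 1) z z') ∨
      ∃ y, Inner (pull f j0 w) S o k y ∧ ReachW w (j0 + k) (m - k) (f y) z' := by
    intro k
    induction k with
    | zero => intro _; exact Or.inr ⟨o, ⟨rfl, ho⟩, h⟩
    | succ k ih =>
      intro hk
      rcases ih (by omega) with h' | ⟨y, hy, hr⟩
      · exact Or.inl h'
      · obtain ⟨l, hl⟩ : ∃ l, m - k = l + 1 := ⟨m - k - 1, by omega⟩
        have hl' : m - k - 1 = l := by omega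
        rw [hl] at hr
        obtain ⟨z, hz, hzr⟩ := hr
        by_cases ha : Allowed f j0 w S k y z
        · obtain ⟨hyS, y', hy'S, rfl, hst⟩ := ha
          refine Or.inr ⟨y', ⟨hy'S, y, hy, hyS, hst⟩, ?_⟩
          have : m - (k + 1) = l := by omega
          rw [this]
          exact hzr
        · refine Or.inl ⟨k, by omega, y, z, hy, ⟨hz, ha⟩, ?_⟩
          rw [hl']
          exact hzr
  rcases key n le_rfl with h' | ⟨y, hy, -⟩
  · exact h'
  · exfalso
    cases n with
    | zero => rw [hS] at ho; exact ho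
    | succ n => rw [H958.LR.Inner, hS] at hy; exact hy.1

end Pointwise

/-! ### Measure estimates -/

section Main

variable {V Λ : Type} [Countable V] {Ω : Type} [MeasurableSpace Ω]

theorem meas_bad [Countable Λ] (Z : (Sym2 V ⊕ V) × ℕ → Ω → Bool) (f : Λ → V) (j0 : ℕ)
    (S : ℕ → Set Λ) (j : ℕ) (y : Λ) (z : V) :
    MeasurableSet[Hs Z (Wd V {j0 + j})] {ω | WStep (fun i => Z i ω) (j0 + j) (f y) z ∧
      ¬ Allowed f j0 (fun i => Z i ω) S j y z} := by
  have h2 : MeasurableSet[Hs Z (Wd V {j0 + j})] {ω | Allowed f j0 (fun i => Z i ω) S j y z} := by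
    have : {ω | Allowed f j0 (fun i => Z i ω) S j y z} =
        ⋃ y', {_ω : Ω | y ∈ S (j + 1) ∧ y' ∈ S (j + 1) ∧ z = f y'} ∩
          {ω | Step (pull f j0 fun i => Z i ω) j y y'} := by
      ext ω
      simp only [Allowed, Set.mem_ofPred_eq, mem_iUnion, mem_inter_iff]
      constructor
      · rintro ⟨h, y', h1, h2, h3⟩; exact ⟨y', ⟨h, h1, h2⟩, h3⟩
      · rintro ⟨y', ⟨h, h1, h2⟩, h3⟩; exact ⟨h, y', h1, h2, h3⟩
    rw [this]
    exact MeasurableSet.iUnion fun y' => (MeasurableSet.const _).inter (meas_Step Z f j0 j y y')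
  exact (meas_WStep Z (j0 + j) (f y) z).inter h2.compl

/-- `M(j0, m, x)`. -/
noncomputable def MM (P : Measure Ω) (Z : (Sym2 V ⊕ V) × ℕ → Ω → Bool) (j0 m : ℕ) (x : V) :
    ℝ≥0∞ := ∑' y, P {ω | ReachW (fun i => Z i ω) j0 m x y}

/-- `M_m`. -/
noncomputable def MS (P : Measure Ω) (Z : (Sym2 V ⊕ V) × ℕ → Ω → Bool) (m : ℕ) : ℝ≥0∞ :=
  ⨆ j0, ⨆ x, MM P Z j0 m x

theorem MM_le_MS (P : Measure Ω) (Z : (Sym2 V ⊕ V) × ℕ → Ω → Bool) (j0 m : ℕ) (x : V) :
    MM P Z j0 m x ≤ MS P Z m := le_iSup₂ (f := fun j0 x => MM P Z j0 m x) j0 x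

theorem MS_zero (P : Measure Ω) [IsProbabilityMeasure P] (Z : (Sym2 V ⊕ V) × ℕ → Ω → Bool) :
    MS P Z 0 ≤ 1 := by
  refine iSup₂_le fun j0 x => ?_
  unfold MM
  rw [tsum_eq_single x]
  · exact prob_le_one
  · intro y hy
    have : {ω | ReachW (fun i => Z i ω) j0 0 x y} = ∅ := by
      ext ω; simp [ReachW, Ne.symm hy]
    rw [this]; simp

theorem MS_succ (P : Measure Ω) [IsProbabilityMeasure P] (Z : (Sym2 V ⊕ V) × ℕ → Ω → Bool)
    (hm : ∀ i, Measurable (Z i)) (hi : iIndepFun Z P) (g : ℝ≥0∞)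
    (hg : ∀ j x, ∑' z, P {ω | WStep (fun i => Z i ω) j x z} ≤ g) (m : ℕ) :
    MS P Z (m + 1) ≤ g * MS P Z m := by
  refine iSup₂_le fun j0 x => ?_
  have h1 : ∀ y, P {ω | ReachW (fun i => Z i ω) j0 (m + 1) x y} ≤
      ∑' z, P {ω | WStep (fun i => Z i ω) j0 x z} *
        P {ω | ReachW (fun i => Z i ω) (j0 + 1) m z y} := by
    intro y
    have : {ω | ReachW (fun i => Z i ω) j0 (m + 1) x y} =
        ⋃ z, {ω | WStep (fun i => Z i ω) j0 x z} ∩
          {ω | ReachW (fun i => Z i ω) (j0 + 1) m z y} := by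
      ext ω; simp [ReachW]
    rw [this]
    refine (measure_iUnion_le _).trans (le_of_eq ?_)
    congr 1
    ext z
    refine Hs_indep Z hm hi (Wd_disj ?_) (meas_WStep Z j0 x z) (meas_ReachW Z m (j0 + 1) z y)
    simp
  calc MM P Z j0 (m + 1) x
      ≤ ∑' y, ∑' z, P {ω | WStep (fun i => Z i ω) j0 x z} *
        P {ω | ReachW (fun i => Z i ω) (j0 + 1) m z y} := ENNReal.tsum_le_tsum h1
    _ = ∑' z, P {ω | WStep (fun i => Z i ω) j0 x z} * MM P Z (j0 + 1) m z := by
        rw [ENNReal.tsum_comm]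
        congr 1
        ext z
        rw [ENNReal.tsum_mul_left]
        rfl
    _ ≤ ∑' z, P {ω | WStep (fun i => Z i ω) j0 x z} * MS P Z m :=
        ENNReal.tsum_le_tsum fun z => by gcongr; exact MM_le_MS _ _ _ _ _
    _ ≤ g * MS P Z m := by
        rw [ENNReal.tsum_mul_right]
        gcongr
        exact hg j0 x

theorem MS_renew (P : Measure Ω) [IsProbabilityMeasure P] (Z : (Sym2 V ⊕ V) × ℕ → Ω → Bool)
    (hm : ∀ i, Measurable (Z i)) (hi : iIndepFun Z P) [Fintype Λ] (o : Λ) (n : ℕ)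
    (S : ℕ → Set Λ) (ho : o ∈ S 0) (hS : S n = ∅) (ι : V → Λ → V) (hιo : ∀ x, ι x o = x)
    (ψ : ℝ≥0∞)
    (hψ : ∀ (x : V) (j0 : ℕ), ∑ j ∈ Finset.range n, ∑ y,
      P {ω | H958.LR.Inner (pull (ι x) j0 fun i => Z i ω) S o j y} *
        ∑' z, P {ω | WStep (fun i => Z i ω) (j0 + j) (ι x y) z ∧
          ¬ Allowed (ι x) j0 (fun i => Z i ω) S j y z} ≤ ψ)
    (m : ℕ) (hnm : n ≤ m) (B : ℝ≥0∞) (hB : ∀ j < n, MS P Z (m - j - 1) ≤ B) :
    MS P Z m ≤ ψ * B := by
  refine iSup₂_le fun j0 x => ?_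
  set A : ℕ → Λ → Set Ω := fun j y =>
    {ω | H958.LR.Inner (pull (ι x) j0 fun i => Z i ω) S o j y} with hA
  set W : ℕ → Λ → V → Set Ω := fun j y z =>
    {ω | WStep (fun i => Z i ω) (j0 + j) (ι x y) z ∧
      ¬ Allowed (ι x) j0 (fun i => Z i ω) S j y z} with hW
  set C : ℕ → V → V → Set Ω := fun j z z' =>
    {ω | ReachW (fun i => Z i ω) (j0 + j + 1) (m - j - 1) z z'} with hC
  have h1 : ∀ z', P {ω | ReachW (fun i => Z i ω) j0 m x z'} ≤
      ∑ j ∈ Finset.range n, ∑ y, ∑' z, P (A j y) * (P (W j y z) * P (C j z z')) := by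
    intro z'
    have hsub : {ω | ReachW (fun i => Z i ω) j0 m x z'} ⊆
        ⋃ j ∈ Finset.range n, ⋃ y ∈ (Finset.univ : Finset Λ), ⋃ z, A j y ∩ (W j y z ∩ C j z z') := by
      intro ω hω
      have hω' : ReachW (fun i => Z i ω) j0 m (ι x o) z' := by rw [hιo]; exact hω
      obtain ⟨j, hj, y, z, h1, h2, h3⟩ := decomp (ι x) j0 _ S o n m hnm ho hS z' hω'
      simp only [mem_iUnion]
      exact ⟨j, Finset.mem_range.2 hj, y, Finset.mem_univ y, z, h1, h2, h3⟩
    refine (measure_mono hsub).trans ?_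
    refine (measure_biUnion_finset_le _ _).trans (Finset.sum_le_sum fun j _ => ?_)
    refine (measure_biUnion_finset_le _ _).trans (Finset.sum_le_sum fun y _ => ?_)
    refine (measure_iUnion_le _).trans (ENNReal.tsum_le_tsum fun z => le_of_eq ?_)
    have hCm : MeasurableSet[Hs Z (Wd V (Ici (j0 + j + 1)))] (C j z z') :=
      meas_ReachW Z (m - j - 1) (j0 + j + 1) z z'
    have hWm : MeasurableSet[Hs Z (Wd V {j0 + j})] (W j y z) := meas_bad Z (ι x) j0 S j y z
    have hAm : MeasurableSet[Hs Z (Wd V (Iio (j0 + j)))] (A j y) := meas_Inner Z (ι x) j0 S o j y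
    rw [Hs_indep Z hm hi (T := Wd V (Iio (j0 + j))) (T' := Wd V (Ici (j0 + j))) (Wd_disj ?_) hAm ?_,
      Hs_indep Z hm hi (Wd_disj ?_) hWm hCm]
    · simp
    · rw [Set.disjoint_left]; intro i hi1 hi2
      simp only [mem_Iio, mem_Ici] at hi1 hi2; omega
    · exact (Hs_mono Z (Wd_mono (by simp)) _ hWm).inter
        (Hs_mono Z (Wd_mono (Ici_subset_Ici.2 (Nat.le_succ _))) _ hCm)
  calc MM P Z j0 m x
      ≤ ∑' z', ∑ j ∈ Finset.range n, ∑ y, ∑' z, P (A j y) * (P (W j y z) * P (C j z z')) :=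
        ENNReal.tsum_le_tsum h1
    _ = ∑ j ∈ Finset.range n, ∑ y, P (A j y) * ∑' z, P (W j y z) * ∑' z', P (C j z z') := by
        rw [Summable.tsum_finsetSum fun j _ => ENNReal.summable]
        refine Finset.sum_congr rfl fun j _ => ?_
        rw [Summable.tsum_finsetSum fun j _ => ENNReal.summable]
        refine Finset.sum_congr rfl fun y _ => ?_
        rw [ENNReal.tsum_comm, ← ENNReal.tsum_mul_left]
        congr 1
        ext z
        rw [ENNReal.tsum_mul_left, ENNReal.tsum_mul_left]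
    _ ≤ ∑ j ∈ Finset.range n, ∑ y, P (A j y) * ∑' z, P (W j y z) * B := by
        refine Finset.sum_le_sum fun j hj => Finset.sum_le_sum fun y _ => ?_
        gcongr with z
        exact (MM_le_MS P Z (j0 + j + 1) (m - j - 1) z).trans (hB j (Finset.mem_range.1 hj))
    _ = (∑ j ∈ Finset.range n, ∑ y, P (A j y) * ∑' z, P (W j y z)) * B := by
        rw [Finset.sum_mul]
        refine Finset.sum_congr rfl fun j _ => ?_
        rw [Finset.sum_mul]
        refine Finset.sum_congr rfl fun y _ => ?_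
        rw [ENNReal.tsum_mul_right, mul_assoc]
    _ ≤ ψ * B := by gcongr; exact hψ x j0

/-- The renewal inequality forces `M_m → 0`, hence extinction. -/
theorem extinct (P : Measure Ω) [IsProbabilityMeasure P] (Z : (Sym2 V ⊕ V) × ℕ → Ω → Bool)
    (g ψ : ℝ≥0∞) (hg : g ≠ ∞) (hψ : ψ < 1) (n : ℕ)
    (h0 : MS P Z 0 ≤ 1) (h1 : ∀ m, MS P Z (m + 1) ≤ g * MS P Z m)
    (h2 : ∀ m, n ≤ m → ∀ B, (∀ j < n, MS P Z (m - j - 1) ≤ B) → MS P Z m ≤ ψ * B) (x : V) :
    P {ω | ∀ m, ∃ y, ReachW (fun i => Z i ω) 0 m x y} = 0 := by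
  set B : ℝ≥0∞ := (1 + g) ^ n with hB
  have hBt : B ≠ ∞ := ENNReal.pow_ne_top (by simp [hg])
  have hsmall : ∀ m, MS P Z m ≤ (1 + g) ^ m := by
    intro m
    induction m with
    | zero => simpa using h0
    | succ m ih =>
      calc MS P Z (m + 1) ≤ g * MS P Z m := h1 m
        _ ≤ (1 + g) * (1 + g) ^ m := by gcongr; exact le_add_self
        _ = (1 + g) ^ (m + 1) := by rw [pow_succ]; ring
  have hall : ∀ m, MS P Z m ≤ B := by
    intro m
    induction m using Nat.strong_induction_on with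
    | _ m ih =>
      by_cases hm : n ≤ m
      · calc MS P Z m ≤ ψ * B := h2 m hm B fun j hj => ih _ (by omega)
          _ ≤ 1 * B := by gcongr
          _ = B := one_mul _
      · exact (hsmall m).trans (pow_le_pow_right₀ (by simp) (by omega))
  have hk : ∀ k m, k * n ≤ m → MS P Z m ≤ ψ ^ k * B := by
    intro k
    induction k with
    | zero => intro m _; simpa using hall m
    | succ k ih =>
      intro m hm
      have hm' : k * n + n ≤ m := by rw [Nat.succ_mul] at hm; exact hm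
      calc MS P Z m ≤ ψ * (ψ ^ k * B) := h2 m (by omega) _ fun j hj => ih _ (by omega)
        _ = ψ ^ (k + 1) * B := by rw [pow_succ]; ring
  have hP : ∀ k : ℕ, P {ω | ∀ m, ∃ y, ReachW (fun i => Z i ω) 0 m x y} ≤ ψ ^ k * B := by
    intro k
    calc P {ω | ∀ m, ∃ y, ReachW (fun i => Z i ω) 0 m x y}
        ≤ P (⋃ y, {ω | ReachW (fun i => Z i ω) 0 (k * n) x y}) := by
          refine measure_mono fun ω hω => ?_
          simp only [mem_iUnion]
          exact hω (k * n)
      _ ≤ MM P Z 0 (k * n) x := measure_iUnion_le _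
      _ ≤ MS P Z (k * n) := MM_le_MS _ _ _ _ _
      _ ≤ ψ ^ k * B := hk k _ le_rfl
  have hlim : Tendsto (fun k : ℕ => ψ ^ k * B) atTop (𝓝 0) := by
    have := ENNReal.Tendsto.mul_const (b := B) (ENNReal.tendsto_pow_atTop_nhds_zero_of_lt_one hψ)
      (Or.inr hBt)
    simpa using this
  exact le_antisymm (ge_of_tendsto' hlim hP) bot_le

end Main

/-! ### The one-window estimates -/

section Window

variable {V Λ : Type} [Countable V] {Ω : Type} [MeasurableSpace Ω]

/-- The row bounds for one window. -/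
structure WB (P : Measure Ω) (Z : (Sym2 V ⊕ V) × ℕ → Ω → Bool) (a : V → V → ℝ) (r ρ : ℝ) :
    Prop where
  meas : ∀ i, Measurable (Z i)
  ind : iIndepFun Z P
  a0 : ∀ x y, 0 ≤ a x y
  ha : ∀ x y, x ≠ y → ∀ j, P {ω | Z (Sum.inl s(x, y), j) ω = true} ≤ ENNReal.ofReal (a x y)
  r0 : 0 ≤ r
  r1 : r < 1
  row : ∀ x, ∑' y, ENNReal.ofReal (a x y) ≤ ENNReal.ofReal r
  ρ0 : 0 ≤ ρ
  ρ1 : ρ ≤ 1
  hρ : ∀ x j, P {ω | Z (Sum.inr x, j) ω = true} = ENNReal.ofReal ρ
  saw1 : ∀ j x, ∑' y, P {ω | x ≠ y ∧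
      Relation.TransGen (fun a b => a ≠ b ∧ Z (Sum.inl s(a, b), j) ω = true) x y ∧
        Z (Sum.inl s(x, y), j) ω = false} ≤ ENNReal.ofReal (r ^ 2 / (1 - r))
  saw2 : ∀ j x, P {ω | ∃ y, x ≠ y ∧ Z (Sum.inl s(x, y), j) ω = true} ≤ ENNReal.ofReal r

variable {P : Measure Ω} [IsProbabilityMeasure P] {Z : (Sym2 V ⊕ V) × ℕ → Ω → Bool}
  {a : V → V → ℝ} {r ρ : ℝ}

/-- Sum over targets of the probability of a step of the upper process with property `A z`. -/
theorem split3 (h : WB P Z a r ρ) (J : ℕ) (x : V) (A : V → Ω → Prop) :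
    ∑' z, P {ω | WStep (fun i => Z i ω) J x z ∧ A z ω} ≤
      P {ω | WStep (fun i => Z i ω) J x x ∧ A x ω} +
        ∑' z, P {ω | x ≠ z ∧ Z (Sum.inl s(x, z), J) ω = true ∧ A z ω} +
        ENNReal.ofReal (r ^ 2 / (1 - r)) := by
  have h1 : ∀ z, P {ω | WStep (fun i => Z i ω) J x z ∧ A z ω} ≤
      (P {ω | x = z ∧ WStep (fun i => Z i ω) J x z ∧ A z ω} +
      P {ω | x ≠ z ∧ Z (Sum.inl s(x, z), J) ω = true ∧ A z ω}) +
      P {ω | x ≠ z ∧
      Relation.TransGen (fun a b => a ≠ b ∧ Z (Sum.inl s(a, b), J) ω = true) x z ∧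
        Z (Sum.inl s(x, z), J) ω = false} := by
    intro z
    refine le_trans (measure_mono ?_) ((measure_union_le _ _).trans
      (add_le_add_left (measure_union_le _ _) _))
    rintro ω ⟨hw, hA⟩
    by_cases hxz : x = z
    · exact Or.inl (Or.inl ⟨hxz, hw, hA⟩)
    · rcases hw with ⟨h', -⟩ | hw
      · exact absurd h' hxz
      · cases hb : Z (Sum.inl s(x, z), J) ω with
        | true => exact Or.inl (Or.inr ⟨hxz, hb, hA⟩)
        | false => exact Or.inr ⟨hxz, hw, hb⟩
  refine (ENNReal.tsum_le_tsum h1).trans ?_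
  rw [ENNReal.tsum_add, ENNReal.tsum_add]
  gcongr
  · rw [tsum_eq_single x]
    · exact measure_mono fun ω hω => hω.2
    · intro z hz
      have : {ω | x = z ∧ WStep (fun i => Z i ω) J x z ∧ A z ω} = ∅ := by
        ext ω; simp [Ne.symm hz]
      rw [this]; simp
  · exact h.saw1 J x

theorem row_total (h : WB P Z a r ρ) (J : ℕ) (x : V) (A : V → Ω → Prop) :
    ∑' z, P {ω | x ≠ z ∧ Z (Sum.inl s(x, z), J) ω = true ∧ A z ω} ≤ ENNReal.ofReal r := by
  refine le_trans (ENNReal.tsum_le_tsum fun z => ?_) (h.row x)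
  by_cases hxz : x = z
  · have : {ω | x ≠ z ∧ Z (Sum.inl s(x, z), J) ω = true ∧ A z ω} = ∅ := by
      ext ω; simp [hxz]
    rw [this]; simp
  · exact (measure_mono fun ω hω => hω.2.1).trans (h.ha x z hxz J)

theorem total_bound (h : WB P Z a r ρ) (J : ℕ) (x : V) :
    ∑' z, P {ω | WStep (fun i => Z i ω) J x z} ≤
      1 + ENNReal.ofReal r + ENNReal.ofReal (r ^ 2 / (1 - r)) := by
  have h1 := split3 h J x (fun _ _ => True)
  simp only [and_true] at h1
  refine h1.trans ?_
  gcongr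
  · exact prob_le_one
  · have h2 := row_total h J x (fun _ _ => True)
    simpa only [and_true] using h2

/-- Recovery together with a closed chain. -/
theorem closed_bound (h : WB P Z a r ρ) (J : ℕ) (x : V) :
    P {ω | Z (Sum.inr x, J) ω = false ∧
      Relation.TransGen (fun a b => a ≠ b ∧ Z (Sum.inl s(a, b), J) ω = true) x x} ≤
      ENNReal.ofReal ((1 - ρ) * r) := by
  have h1 : P {ω | Z (Sum.inr x, J) ω = false ∧
      Relation.TransGen (fun a b => a ≠ b ∧ Z (Sum.inl s(a, b), J) ω = true) x x} =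
      P {ω | Z (Sum.inr x, J) ω = false} * P {ω |
      Relation.TransGen (fun a b => a ≠ b ∧ Z (Sum.inl s(a, b), J) ω = true) x x} := by
    refine Hs_indep Z h.meas h.ind (T := {i | i.1.isRight = true}) (T' :=
      {i | i.2 = J ∧ i.1.isLeft = true}) ?_ (Hs_coord Z (by simp) false) (meas_chain Z J x x)
    rw [Set.disjoint_left]
    rintro ⟨i | i, j⟩ hi hi'
    · simp at hi
    · simp at hi'
  rw [h1, ENNReal.ofReal_mul (by linarith [h.ρ1])]
  gcongr
  · have h2 : {ω | Z (Sum.inr x, J) ω = false} = {ω | Z (Sum.inr x, J) ω = true}ᶜ := by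
      ext ω; simp
    have h3 : MeasurableSet {ω | Z (Sum.inr x, J) ω = true} :=
      h.meas _ (measurableSet_singleton true)
    rw [h2, prob_compl_eq_one_sub h3, h.hρ, ENNReal.ofReal_sub _ h.ρ0, ENNReal.ofReal_one]
  · refine (measure_mono fun ω hω => ?_).trans (h.saw2 J x)
    obtain ⟨b, hb, -⟩ := Relation.TransGen.head'_iff.1 hω
    exact ⟨b, hb⟩

/-- **Step (e).** -/
theorem W_bound (h : WB P Z a r ρ) [Fintype Λ] (f : Λ → V) (hf : Function.Injective f)
    (S : ℕ → Set Λ) (p : Sym2 Λ ⊕ Λ → ℝ) (hp : ∀ i, 0 ≤ p i)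
    (hap : ∀ y z, y ≠ z → a (f y) (f z) ≤ p (Sum.inl s(y, z))) (out : ℝ) (hout0 : 0 ≤ out)
    (j0 j : ℕ) (y : Λ)
    (hout : ∑' z : {z : V // z ∉ Set.range f}, ENNReal.ofReal (a (f y) z) ≤ ENNReal.ofReal out)
    (b : ℝ)
    (hb1 : y ∈ S (j + 1) → ∀ [DecidablePred (· ∈ S (j + 1))],
      (∑ z, (if z ∈ S (j + 1) then 0 else p (Sum.inl s(y, z)))) + out ≤ b)
    (hb2 : y ∉ S (j + 1) → ρ + r ≤ b) :
    ∑' z, P {ω | WStep (fun i => Z i ω) (j0 + j) (f y) z ∧
      ¬ Allowed f j0 (fun i => Z i ω) S j y z} ≤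
      ENNReal.ofReal (b + ((1 - ρ) * r + r ^ 2 / (1 - r))) := by
  classical
  have hρ1 : 0 ≤ 1 - ρ := by linarith [h.ρ1]
  have hr1 : 0 < 1 - r := by linarith [h.r1]
  have hr0 := h.r0
  have hρ0 := h.ρ0
  have hcr : 0 ≤ (1 - ρ) * r := mul_nonneg hρ1 hr0
  have hrr : 0 ≤ r ^ 2 / (1 - r) := by positivity
  refine (split3 h (j0 + j) (f y) fun z ω => ¬ Allowed f j0 (fun i => Z i ω) S j y z).trans ?_
  by_cases hy : y ∈ S (j + 1)
  · -- closed chain
    have hE3 : P {ω | WStep (fun i => Z i ω) (j0 + j) (f y) (f y) ∧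
        ¬ Allowed f j0 (fun i => Z i ω) S j y (f y)} ≤ ENNReal.ofReal ((1 - ρ) * r) := by
      refine (measure_mono ?_).trans (closed_bound h (j0 + j) (f y))
      rintro ω ⟨hw, hA⟩
      have hz : Z (Sum.inr (f y), j0 + j) ω = false := by
        by_contra hz
        refine hA ⟨hy, y, hy, rfl, ?_⟩
        rw [Step_pull]
        exact Or.inl ⟨rfl, by simpa using hz⟩
      refine ⟨hz, ?_⟩
      rcases hw with ⟨-, hw⟩ | hw
      · change Z (Sum.inr (f y), j0 + j) ω = true at hw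
        rw [hz] at hw; exact absurd hw (by simp)
      · exact hw
    have hE2 : ∑' z, P {ω | f y ≠ z ∧ Z (Sum.inl s(f y, z), j0 + j) ω = true ∧
        ¬ Allowed f j0 (fun i => Z i ω) S j y z} ≤
        ENNReal.ofReal ((∑ z, (if z ∈ S (j + 1) then 0 else p (Sum.inl s(y, z)))) + out) := by
      have hnn : ∀ z ∈ (Finset.univ : Finset Λ),
          0 ≤ (if z ∈ S (j + 1) then (0 : ℝ) else p (Sum.inl s(y, z))) := by
        intro z _; split_ifs
        · exact le_rfl
        · exact hp _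
      rw [ENNReal.ofReal_add (Finset.sum_nonneg hnn) hout0, ENNReal.ofReal_sum_of_nonneg hnn,
        ← ENNReal.summable.tsum_add_tsum_compl (s := Set.range f) ENNReal.summable]
      refine add_le_add ?_ ?_
      · rw [tsum_range (f := fun z => P {ω | f y ≠ z ∧ Z (Sum.inl s(f y, z), j0 + j) ω = true ∧
          ¬ Allowed f j0 (fun i => Z i ω) S j y z}) hf, tsum_fintype]
        refine Finset.sum_le_sum fun z _ => ?_
        by_cases hyz : y = z
        · have : {ω | f y ≠ f z ∧ Z (Sum.inl s(f y, f z), j0 + j) ω = true ∧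
              ¬ Allowed f j0 (fun i => Z i ω) S j y (f z)} = ∅ := by
            ext ω; simp [hyz]
          rw [this]; simp
        · split_ifs with hz
          · have : {ω | f y ≠ f z ∧ Z (Sum.inl s(f y, f z), j0 + j) ω = true ∧
                ¬ Allowed f j0 (fun i => Z i ω) S j y (f z)} = ∅ := by
              ext ω
              simp only [Set.mem_ofPred_eq, mem_empty_iff_false, iff_false, not_and, not_not]
              intro _ hZ
              refine ⟨hy, z, hz, rfl, ?_⟩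
              rw [Step_pull]
              exact Or.inr ⟨hyz, hZ⟩
            rw [this]; simp
          · refine (measure_mono fun ω hω => hω.2.1).trans ((h.ha (f y) (f z)
              (fun hh => hyz (hf hh)) (j0 + j)).trans (ENNReal.ofReal_le_ofReal (hap y z hyz)))
      · refine le_trans (ENNReal.tsum_le_tsum fun z => ?_) hout
        refine (measure_mono fun ω hω => hω.2.1).trans (h.ha (f y) z (fun hh => ?_) (j0 + j))
        exact z.2 ⟨y, hh⟩
    calc _ ≤ ENNReal.ofReal ((1 - ρ) * r) +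
          ENNReal.ofReal ((∑ z, (if z ∈ S (j + 1) then 0 else p (Sum.inl s(y, z)))) + out) +
          ENNReal.ofReal (r ^ 2 / (1 - r)) := by gcongr
      _ ≤ ENNReal.ofReal ((1 - ρ) * r) + ENNReal.ofReal b + ENNReal.ofReal (r ^ 2 / (1 - r)) := by
          gcongr; exact hb1 hy
      _ = ENNReal.ofReal (b + ((1 - ρ) * r + r ^ 2 / (1 - r))) := by
          have hb0 : 0 ≤ b := by
            refine le_trans (add_nonneg (Finset.sum_nonneg fun z _ => ?_) hout0) (hb1 hy)
            split_ifs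
            · exact le_rfl
            · exact hp _
          rw [← ENNReal.ofReal_add hcr hb0, ← ENNReal.ofReal_add (by positivity) hrr]
          congr 1; ring
  · have hb0 : 0 ≤ b := le_trans (by positivity) (hb2 hy)
    have hE3 : P {ω | WStep (fun i => Z i ω) (j0 + j) (f y) (f y) ∧
        ¬ Allowed f j0 (fun i => Z i ω) S j y (f y)} ≤
        ENNReal.ofReal ρ + ENNReal.ofReal ((1 - ρ) * r) := by
      rw [← h.hρ (f y) (j0 + j)]
      refine (measure_mono ?_).trans ((measure_union_le _ _).trans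
        (add_le_add_right (closed_bound h (j0 + j) (f y)) _))
      rintro ω ⟨hw, -⟩
      cases hz : Z (Sum.inr (f y), j0 + j) ω with
      | true => exact Or.inl hz
      | false =>
        refine Or.inr ⟨hz, ?_⟩
        rcases hw with ⟨-, hw⟩ | hw
        · change Z (Sum.inr (f y), j0 + j) ω = true at hw
          rw [hz] at hw; exact absurd hw (by simp)
        · exact hw
    calc _ ≤ ENNReal.ofReal ρ + ENNReal.ofReal ((1 - ρ) * r) + ENNReal.ofReal r +
          ENNReal.ofReal (r ^ 2 / (1 - r)) := by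
          gcongr
          exact row_total h (j0 + j) (f y) _
      _ = ENNReal.ofReal ((ρ + r) + ((1 - ρ) * r + r ^ 2 / (1 - r))) := by
          rw [← ENNReal.ofReal_add hρ0 hcr, ← ENNReal.ofReal_add (by positivity) hr0,
            ← ENNReal.ofReal_add (by positivity) hrr]
          congr 1; ring
      _ ≤ _ := ENNReal.ofReal_le_ofReal (by linarith [hb2 hy])

/-- **Step (d).** -/
theorem F_bound (hLAW : S_LAW) (h : WB P Z a r ρ) [Fintype Λ] [DecidableEq Λ] (f : Λ → V)
    (hf : Function.Injective f) (S : ℕ → Set Λ) (o : Λ) (n : ℕ) (p : Sym2 Λ ⊕ Λ → ℝ)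
    (hp : ∀ i, 0 ≤ p i ∧ p i ≤ 1)
    (hap : ∀ y z, y ≠ z → a (f y) (f z) ≤ p (Sum.inl s(y, z))) (hpρ : ∀ y, ρ ≤ p (Sum.inr y))
    (j0 j : ℕ) (hj : j < n) (y : Λ) :
    P {ω | H958.LR.Inner (pull f j0 fun i => Z i ω) S o j y} ≤
      ENNReal.ofReal (FI p n S o j y) := by
  classical
  let Φ : (Sym2 Λ ⊕ Λ) × Fin n → (Sym2 V ⊕ V) × ℕ :=
    fun i => (Sum.map (Sym2.map f) f i.1, j0 + i.2)
  have hΦ : Function.Injective Φ := by
    rintro ⟨i, k⟩ ⟨i', k'⟩ hh
    simp only [Φ, Prod.mk.injEq] at hh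
    obtain ⟨h1, h2⟩ := hh
    have h1' : i = i' := (Sum.map_injective.2 ⟨Sym2.map.injective hf, hf⟩) h1
    have h2' : k = k' := Fin.ext (by omega)
    rw [h1', h2']
  let cut : (Sym2 Λ ⊕ Λ) × Fin n → Bool → Bool := fun i b =>
    match i.1 with
    | Sum.inl e => if e.IsDiag then false else b
    | Sum.inr _ => b
  let Y : (Sym2 Λ ⊕ Λ) × Fin n → Ω → Bool := fun i ω => cut i (Z (Φ i) ω)
  have hYm : ∀ i, Measurable (Y i) := fun i => (measurable_of_countable (cut i)).comp (h.meas (Φ i))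
  have hYi : iIndepFun Y P := by
    have h1 : iIndepFun (fun i => Z (Φ i)) P := h.ind.precomp hΦ
    exact h1.comp cut fun i => measurable_of_countable (cut i)
  have hYp : ∀ i, P {ω | Y i ω = true} ≤ ENNReal.ofReal (p i.1) := by
    rintro ⟨e | x, k⟩
    · induction e using Sym2.ind with
      | _ y z =>
        by_cases hyz : y = z
        · have : {ω | Y (Sum.inl s(y, z), k) ω = true} = ∅ := by
            ext ω; simp [Y, cut, hyz]
          rw [this]; simp
        · have : {ω | Y (Sum.inl s(y, z), k) ω = true} =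
              {ω | Z (Sum.inl s(f y, f z), j0 + k) ω = true} := by
            ext ω; simp [Y, cut, Φ, hyz]
          rw [this]
          exact (h.ha (f y) (f z) (fun hh => hyz (hf hh)) _).trans
            (ENNReal.ofReal_le_ofReal (hap y z hyz))
    · have : {ω | Y (Sum.inr x, k) ω = true} = {ω | Z (Sum.inr (f x), j0 + k) ω = true} := by
        ext ω; simp [Y, cut, Φ]
      rw [this, h.hρ]
      exact ENNReal.ofReal_le_ofReal (hpρ x)
  have key := hLAW.2.1 Λ n Ω P Y p hYm hYi hp hYp (fun w => H958.LR.Inner w S o j y)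
    (Inner_incr S o j y)
  refine le_trans (measure_mono ?_) key
  intro ω hω
  refine Inner_congr S o n _ _ ?_ ?_ j hj.le y hω
  · intro x k hk
    simp [pull, H958.LR.ext, hk, Y, cut, Φ]
  · intro x z k hk hxz
    simp [pull, H958.LR.ext, hk, Y, cut, Φ, hxz]

end Window

/-! ### The theorem -/

theorem EP_nonneg {Λ : Type} [Fintype Λ] [DecidableEq Λ] (n : ℕ) (p : Sym2 Λ ⊕ Λ → ℝ)
    (hp : ∀ i, 0 ≤ p i ∧ p i ≤ 1) (A : Win Λ → Prop) : 0 ≤ EP n p A := by
  classical
  unfold EP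
  refine Finset.sum_nonneg fun η _ => mul_nonneg (Finset.prod_nonneg fun i _ => ?_) ?_
  · split_ifs
    · exact (hp _).1
    · linarith [(hp i.1).2]
  · split_ifs <;> norm_num

theorem s_perc : S_LAW → S_SAW → S_PERC := by
  intro hLAW hSAW V _ Ω _ P _ Z a r ρ hZm hZi ha0 ha hr0 hr1 hrow hρ0 hρ1 hρ Λ _ _ o n S ho hS
    ι hι hιo p hp hap hpρ out hout0 hout hpsi x
  classical
  have hWB : WB P Z a r ρ := by
    have hX : ∀ j : ℕ, iIndepFun (fun e : Sym2 V => Z (Sum.inl e, j)) P := by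
      intro j
      refine hZi.precomp (g := fun e : Sym2 V => ((Sum.inl e : Sym2 V ⊕ V), j)) ?_
      intro e e' hh
      simpa using hh
    refine ⟨hZm, hZi, ha0, ha, hr0, hr1, hrow, hρ0, hρ1, hρ, fun j => ?_, fun j => ?_⟩
    · exact (hSAW V Ω P (fun e => Z (Sum.inl e, j)) a r (fun e => hZm _) (hX j) ha0
        (fun x y hxy => ha x y hxy j) hr0 hr1 hrow).1
    · exact (hSAW V Ω P (fun e => Z (Sum.inl e, j)) a r (fun e => hZm _) (hX j) ha0
        (fun x y hxy => ha x y hxy j) hr0 hr1 hrow).2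
  refine extinct P Z (1 + ENNReal.ofReal r + ENNReal.ofReal (r ^ 2 / (1 - r)))
    (ENNReal.ofReal (psi p n S o ρ r out)) (by simp) ?_ n (MS_zero P Z) (fun m => ?_) ?_ x
  · rw [← ENNReal.ofReal_one]
    exact (ENNReal.ofReal_lt_ofReal_iff one_pos).2 hpsi
  · exact MS_succ P Z hZm hZi _ (fun j x => total_bound hWB j x) m
  · intro m hm B hB
    refine MS_renew P Z hZm hZi o n S ho hS ι hιo _ ?_ m hm B hB
    intro x j0
    unfold psi
    have hr1' : 0 < 1 - r := by linarith
    have hρ1' : 0 ≤ 1 - ρ := by linarith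
    have hterm : ∀ j y, 0 ≤ FI p n S o j y * ((if y ∈ S (j + 1) then
        (∑ z, (if z ∈ S (j + 1) then 0 else p (Sum.inl s(y, z)))) + out y
        else ρ + r) + ((1 - ρ) * r + r ^ 2 / (1 - r))) := by
      intro j y
      refine mul_nonneg (EP_nonneg n p hp _) (add_nonneg ?_ (by positivity))
      split_ifs
      · refine add_nonneg (Finset.sum_nonneg fun z _ => ?_) (hout0 y)
        split_ifs
        · exact le_rfl
        · exact (hp _).1
      · positivity
    rw [ENNReal.ofReal_sum_of_nonneg fun j _ => Finset.sum_nonneg fun y _ => hterm j y]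
    refine Finset.sum_le_sum fun j hj => ?_
    rw [ENNReal.ofReal_sum_of_nonneg fun y _ => hterm j y]
    refine Finset.sum_le_sum fun y _ => ?_
    have hFI : 0 ≤ FI p n S o j y := EP_nonneg n p hp _
    rw [ENNReal.ofReal_mul hFI]
    refine mul_le_mul' ?_ ?_
    · exact F_bound hLAW hWB (ι x) (hι x) S o n p hp (fun y z hyz => hap x y z hyz) hpρ j0 j
        (Finset.mem_range.1 hj) y
    · refine W_bound hWB (ι x) (hι x) S p (fun i => (hp i).1) (fun y z hyz => hap x y z hyz)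
        (out y) (hout0 y) j0 j y (hout x y) _ ?_ ?_
      · intro hy _
        rw [if_pos hy]
        refine add_le_add_left (le_of_eq ?_) _
        refine Finset.sum_congr rfl fun z _ => ?_
        split_ifs <;> rfl
      · intro hy
        rw [if_neg hy]

end Pool.Agent.H955.LR
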